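import Pool.Agent.H382R2.Defs

open Complex Filter Topology Set MeasureTheory

namespace Pool.Agent.W192.SI

open SG (dl)

/-- width of the Gaussian -/
noncomputable def dd (H T : ℝ) : ℝ := H / Real.log T ^ 2

/-- length of the Dirichlet polynomial -/
noncomputable def nn (H T : ℝ) : ℕ := ⌊H / Real.log T ^ 4⌋₊

/-- admissible parameters: `(log T)^6 ≤ H ≤ T`, `T` large -/
structure Adm (H T : ℝ) : Prop where
  big : Real.exp 100 ≤ T
  lo : Real.log T ^ 6 ≤ H
  hi : H ≤ T

/-- the (negated) separation hypothesis on `[T, T + H]`: every zero of `ζ` with ordinate in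
`[T, T + H]` is simple, lies on the critical line, and distinct zeros have ordinates more than
`δ` apart. -/
structure Sep (δ H T : ℝ) : Prop where
  line : ∀ s : ℂ, 0 < s.re → s.re < 1 → T ≤ s.im → s.im ≤ T + H → riemannZeta s = 0 → s.re = 1 / 2
  simple : ∀ s : ℂ, 0 < s.re → s.re < 1 → T ≤ s.im → s.im ≤ T + H → riemannZeta s = 0 →
    deriv riemannZeta s ≠ 0
  sep : ∀ s s' : ℂ, 0 < s.re → s.re < 1 → T ≤ s.im → s.im ≤ T + H → riemannZeta s = 0 →
    0 < s'.re → s'.re < 1 → T ≤ s'.im → s'.im ≤ T + H → riemannZeta s' = 0 → s ≠ s' →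
    δ < |s.im - s'.im|

namespace Adm

variable {H T : ℝ}

lemma T_pos (h : Adm H T) : 0 < T := (Real.exp_pos _).trans_le h.big

lemma log_ge (h : Adm H T) : 100 ≤ Real.log T := by
  rw [Real.le_log_iff_exp_le h.T_pos]
  exact h.big

lemma T_ge (h : Adm H T) : 100 * Real.log T ≤ T := by
  have h1 := h.log_ge
  have h2 : Real.log T = Real.log T / 100 * 100 := by ring
  have h3 : T = Real.exp (Real.log T / 2) * Real.exp (Real.log T / 2) := by
    rw [← Real.exp_add]
    have : Real.log T / 2 + Real.log T / 2 = Real.log T := by ring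
    rw [this, Real.exp_log h.T_pos]
  have h4 := Real.add_one_le_exp (Real.log T / 2)
  have h5 : 0 < Real.exp (Real.log T / 2) := Real.exp_pos _
  have h6 : Real.exp (Real.log T / 4) * Real.exp (Real.log T / 4) = Real.exp (Real.log T / 2) := by
    rw [← Real.exp_add]
    congr 1
    ring
  have h7 := Real.add_one_le_exp (Real.log T / 4)
  have h8 : 26 * 26 ≤ Real.exp (Real.log T / 2) := by
    rw [← h6]
    have : 26 ≤ Real.exp (Real.log T / 4) := by linarith
    nlinarith
  have h9 : 100 * Real.log T ≤ Real.exp (Real.log T / 2) * Real.exp (Real.log T / 2) := by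
    nlinarith
  linarith

lemma T_ge' (h : Adm H T) : 10000 ≤ T := by
  have := h.T_ge
  have := h.log_ge
  linarith

lemma H_pos (h : Adm H T) : 0 < H := by
  have := h.log_ge
  have : 0 < Real.log T ^ 6 := by positivity
  linarith [h.lo]

lemma H_ge (h : Adm H T) : 10 ^ 12 ≤ H := by
  have h1 := h.log_ge
  have : (100 : ℝ) ^ 6 ≤ Real.log T ^ 6 := pow_le_pow_left₀ (by norm_num) h1 6
  have h2 := h.lo
  norm_num at this ⊢
  linarith

lemma dd_pos (h : Adm H T) : 0 < dd H T := by
  have := h.log_ge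
  have := h.H_pos
  unfold dd
  positivity

lemma dd_sq (h : Adm H T) : dd H T * Real.log T ^ 2 = H := by
  have := h.log_ge
  unfold dd
  field_simp

lemma dd_ge (h : Adm H T) : Real.log T ^ 4 ≤ dd H T := by
  have h1 := h.log_ge
  unfold dd
  rw [le_div_iff₀ (by positivity)]
  have : Real.log T ^ 4 * Real.log T ^ 2 = Real.log T ^ 6 := by ring
  rw [this]
  exact h.lo

lemma one_le_dd (h : Adm H T) : 100 ≤ dd H T := by
  have h1 := h.log_ge
  have h2 : (100 : ℝ) ^ 4 ≤ Real.log T ^ 4 := pow_le_pow_left₀ (by norm_num) h1 4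
  have := h.dd_ge
  norm_num at h2
  linarith

lemma dd_le (h : Adm H T) : dd H T ≤ H / 100 := by
  have h1 := h.log_ge
  have h2 := h.dd_pos
  have h3 := h.dd_sq
  have h4 : (100 : ℝ) ≤ Real.log T ^ 2 := by nlinarith
  nlinarith

lemma dd_le_T (h : Adm H T) : dd H T ≤ T / 100 := by
  have := h.dd_le
  have := h.hi
  linarith

lemma nn_lt (_h : Adm H T) : H / Real.log T ^ 4 < (nn H T : ℝ) + 1 := Nat.lt_floor_add_one _

lemma nn_le' (h : Adm H T) : (nn H T : ℝ) ≤ H / Real.log T ^ 4 := by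
  have := h.H_pos
  have := h.log_ge
  exact Nat.floor_le (by positivity)

lemma quot_ge (h : Adm H T) : Real.log T ^ 2 ≤ H / Real.log T ^ 4 := by
  have h1 := h.log_ge
  rw [le_div_iff₀ (by positivity)]
  have : Real.log T ^ 2 * Real.log T ^ 4 = Real.log T ^ 6 := by ring
  rw [this]
  exact h.lo

lemma nn_big (h : Adm H T) : (9999 : ℝ) ≤ nn H T := by
  have h1 := h.log_ge
  have h2 := h.quot_ge
  have h3 := h.nn_lt
  nlinarith

lemma nn_one (h : Adm H T) : 1 ≤ nn H T := by
  have h1 := h.nn_big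
  have : (1 : ℝ) ≤ nn H T := by linarith
  exact_mod_cast this

lemma nn_half (h : Adm H T) : H / Real.log T ^ 4 / 2 ≤ (nn H T : ℝ) := by
  have h1 := h.nn_lt
  have h2 := h.nn_big
  linarith

lemma nn_le_T (h : Adm H T) : (nn H T : ℝ) ≤ T := by
  have h1 := h.log_ge
  have h2 := h.nn_le'
  have h3 : H / Real.log T ^ 4 ≤ H := by
    apply div_le_self h.H_pos.le
    have : (1 : ℝ) ≤ Real.log T := by linarith
    exact one_le_pow₀ this
  linarith [h.hi]

/-- ratio used in the deep shift -/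
lemma ratio1 (h : Adm H T) : 1 / 2 * Real.log T ^ 2 ≤ (1 / 2 + dd H T) / ((nn H T : ℝ) + 1) := by
  have h1 := h.log_ge
  have h2 := h.nn_le'
  have h3 := h.nn_big
  rw [le_div_iff₀ (by positivity)]
  have h4 : (nn H T : ℝ) + 1 ≤ 2 * (H / Real.log T ^ 4) := by linarith
  have h5 : 1 / 2 * Real.log T ^ 2 * (2 * (H / Real.log T ^ 4)) = dd H T := by
    unfold dd
    field_simp
  have h6 : 1 / 2 * Real.log T ^ 2 * ((nn H T : ℝ) + 1) ≤
      1 / 2 * Real.log T ^ 2 * (2 * (H / Real.log T ^ 4)) :=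
    mul_le_mul_of_nonneg_left h4 (by positivity)
  linarith

/-- ratio used in the mean value theorem -/
lemma ratio2 (h : Adm H T) : Real.log T ^ 4 ≤ dd H T ^ 2 / (nn H T : ℝ) ^ 2 := by
  have h1 := h.log_ge
  have h2 := h.nn_le'
  have h3 := h.nn_big
  have h0 := h.H_pos
  rw [le_div_iff₀ (by positivity)]
  have h4 : (nn H T : ℝ) ^ 2 ≤ (H / Real.log T ^ 4) ^ 2 := pow_le_pow_left₀ (by linarith) h2 2
  have h5 : Real.log T ^ 4 * (H / Real.log T ^ 4) ^ 2 = dd H T ^ 2 := by
    unfold dd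
    field_simp
  calc Real.log T ^ 4 * (nn H T : ℝ) ^ 2 ≤ Real.log T ^ 4 * (H / Real.log T ^ 4) ^ 2 :=
        mul_le_mul_of_nonneg_left h4 (by positivity)
    _ = _ := h5

lemma dl_pos (h : Adm H T) {c : ℝ} (hc : 0 < c) : 0 < dl c T := by
  have := h.log_ge
  have := Real.pi_pos
  unfold dl
  positivity

lemma dl_le (h : Adm H T) {c : ℝ} (hc : c < 2) : dl c T ≤ 1 / 4 := by
  have h1 := h.log_ge
  have h2 := Real.pi_lt_d2
  have h3 := Real.pi_pos
  unfold dl
  rw [div_le_iff₀ (by linarith)]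
  nlinarith

end Adm

/-- polynomial times `exp (-b (log T)^2)` is eventually small -/
theorem ev_small (A b ε : ℝ) (hb : 0 < b) (hε : 0 < ε) :
    ∀ᶠ T : ℝ in atTop, T ^ A * Real.exp (-b * Real.log T ^ 2) ≤ ε := by
  have h1 : Tendsto (fun x : ℝ => x * (b * x - A)) atTop atTop := by
    apply Tendsto.atTop_mul_atTop₀ tendsto_id
    apply tendsto_atTop_add_const_right
    exact tendsto_id.const_mul_atTop hb
  have h2 := (h1.comp Real.tendsto_log_atTop).eventually_ge_atTop (-Real.log ε)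
  filter_upwards [h2, eventually_gt_atTop 0] with T h3 h4
  simp only [Function.comp] at h3
  rw [Real.rpow_def_of_pos h4, ← Real.exp_add]
  calc Real.exp (Real.log T * A + -b * Real.log T ^ 2) ≤ Real.exp (Real.log ε) := by
        apply Real.exp_le_exp.mpr
        nlinarith
    _ = ε := Real.exp_log hε

/-- `exp (K (log T)^2)` times `exp (-b (log T)^4)` is eventually small -/
theorem ev_small4 (K b ε : ℝ) (hb : 0 < b) (hε : 0 < ε) :
    ∀ᶠ T : ℝ in atTop, Real.exp (K * Real.log T ^ 2) * Real.exp (-b * Real.log T ^ 4) ≤ ε := by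
  have h1 : Tendsto (fun x : ℝ => x * (b * x - K)) atTop atTop := by
    apply Tendsto.atTop_mul_atTop₀ tendsto_id
    apply tendsto_atTop_add_const_right
    exact tendsto_id.const_mul_atTop hb
  have h0 : Tendsto (fun T : ℝ => Real.log T ^ 2) atTop atTop :=
    (tendsto_pow_atTop (by norm_num)).comp Real.tendsto_log_atTop
  have h2 := (h1.comp h0).eventually_ge_atTop (-Real.log ε)
  filter_upwards [h2, eventually_gt_atTop 0] with T h3 h4
  simp only [Function.comp] at h3
  rw [← Real.exp_add]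
  calc Real.exp (K * Real.log T ^ 2 + -b * Real.log T ^ 4) ≤ Real.exp (Real.log ε) := by
        apply Real.exp_le_exp.mpr
        nlinarith
    _ = ε := Real.exp_log hε

/-- polynomial times `exp (-b (log T)^4)` is eventually small -/
theorem ev_small4' (A b ε : ℝ) (hb : 0 < b) (hε : 0 < ε) :
    ∀ᶠ T : ℝ in atTop, T ^ A * Real.exp (-b * Real.log T ^ 4) ≤ ε := by
  filter_upwards [ev_small A b ε hb hε, Real.tendsto_log_atTop.eventually_ge_atTop 1,
    eventually_gt_atTop 0] with T h1 h2 h3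
  refine le_trans ?_ h1
  apply mul_le_mul_of_nonneg_left _ (Real.rpow_nonneg h3.le _)
  apply Real.exp_le_exp.mpr
  have : Real.log T ^ 2 ≤ Real.log T ^ 4 := pow_le_pow_right₀ h2 (by norm_num)
  nlinarith

end Pool.Agent.W192.SI
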