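import Pool.Agent.H382R2.Gam
import Pool.Agent.W192.SI.P0

open Complex Filter Topology Set MeasureTheory

namespace Pool.Agent.W192.SI

open SG SG.GamAux

/-- bound for `rr`, uniform in `c` -/
theorem rr_bound : ∃ C : ℝ, 1 ≤ C ∧ ∀ (c H T : ℝ), 0 < c → c < 2 → Adm H T →
    ∀ s : ℂ, T ≤ s.im → s.im ≤ 2 * T → |s.re| ≤ T / 4 → ‖rr (dl c T) s‖ ≤ C := by
  obtain ⟨C, hC, h⟩ := GamAux.shift
  refine ⟨Real.exp C, Real.one_le_exp (by linarith), ?_⟩
  intro c H T hc hc1 hA s h1 h2 h3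
  have hT10 : 10 ≤ T := by linarith [hA.T_ge']
  have hd1 := hA.dl_le hc1
  have hd0 := hA.dl_pos hc
  have habs : |s.im| = s.im := abs_of_nonneg (by linarith)
  have hu : |dl c T / 2| ≤ 1 := by
    rw [abs_of_nonneg (by linarith)]; linarith
  have hu2 : |dl c T / 2| ≤ 1 / 2 := by
    rw [abs_of_nonneg (by linarith)]; linarith
  obtain ⟨_, k1, _⟩ := h s (dl c T / 2) T (by linarith) (by rw [habs]; linarith)
    (by rw [habs]; linarith) (by rw [habs]; linarith) (by rw [habs]; linarith) hu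
  have him : |(1 - s).im| = s.im := by simp [habs]
  have hre : |(1 - s).re| ≤ 1 + T / 4 := by
    have := abs_sub (1 : ℝ) s.re
    simp only [sub_re, one_re]
    calc |1 - s.re| ≤ |(1 : ℝ)| + |s.re| := abs_sub _ _
      _ ≤ _ := by rw [abs_one]; linarith
  obtain ⟨_, k2, _⟩ := h (1 - s) (dl c T / 2) T (by linarith) (by rw [him]; linarith)
    (by rw [him]; linarith) (by rw [him]; linarith) (by rw [him]; linarith) hu
  have e : rr (dl c T) s = (Gammaℝ s / Gammaℝ (s + I * ((dl c T / 2 : ℝ) : ℂ))) *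
      (Gammaℝ (1 - s) / Gammaℝ (1 - s + I * ((dl c T / 2 : ℝ) : ℂ))) := by
    unfold rr
    rw [hh_eq, show (1 : ℂ) - (s - I * ((dl c T / 2 : ℝ) : ℂ)) = 1 - s + I * ((dl c T / 2 : ℝ) : ℂ) by ring]
    rw [div_mul_div_comm]
  rw [e, norm_mul]
  have hb : Real.exp (C * |dl c T / 2|) ≤ Real.exp (C / 2) := by
    apply Real.exp_le_exp.mpr
    nlinarith
  calc _ ≤ Real.exp (C / 2) * Real.exp (C / 2) := by
        gcongr
        · exact k1.trans hb
        · exact k2.trans hb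
    _ = Real.exp C := by rw [← Real.exp_add]; ring_nf

theorem rr_phase : ∃ C : ℝ, 1 ≤ C ∧ ∀ (c H T : ℝ), 0 < c → c < 2 → Adm H T →
    ∀ t : ℝ, T ≤ t → t ≤ 2 * T →
      ‖rr (dl c T) (⟨1 / 2, t⟩ : ℂ) - cexp (-(Real.pi * c : ℝ) * I)‖ ≤ C / Real.log T := by
  obtain ⟨C, hC, h⟩ := GamAux.shift
  refine ⟨16 * C * Real.exp C, ?_, ?_⟩
  · have := Real.one_le_exp (show 0 ≤ C by linarith)
    nlinarith
  intro c H T hc hc1 hA t h1 h2
  have hT10 : 10 ≤ T := by linarith [hA.T_ge']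
  have hd1 := hA.dl_le hc1
  have hd0 := hA.dl_pos hc
  have hlog : 0 < Real.log T := Real.log_pos (by linarith)
  set s : ℂ := ⟨1 / 2, t⟩ with hs
  have habs : |s.im| = t := by
    show |t| = t
    exact abs_of_nonneg (by linarith)
  have hsre : |s.re| = 1 / 2 := by
    show |(1 / 2 : ℝ)| = 1 / 2
    exact abs_of_nonneg (by norm_num)
  set u : ℝ := dl c T / 2 with hu'
  have hu0 : 0 ≤ u := by rw [hu']; linarith
  have habsu : |u| = u := abs_of_nonneg hu0
  have hu : |u| ≤ 1 := by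
    rw [habsu]; linarith
  obtain ⟨_, k1, k1'⟩ := h s u T (by linarith) (by rw [habs]; linarith)
    (by rw [habs]; linarith) (by rw [habs]; linarith) (by rw [habs, hsre]; linarith) hu
  have him : |(1 - s).im| = t := by
    rw [sub_im, one_im, zero_sub, abs_neg, habs]
  have hre : |(1 - s).re| = 1 / 2 := by
    rw [sub_re, one_re, hs]
    norm_num
  obtain ⟨_, k2, k2'⟩ := h (1 - s) u T (by linarith) (by rw [him]; linarith)
    (by rw [him]; linarith) (by rw [him]; linarith) (by rw [him, hre]; linarith) hu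
  rw [habsu] at k1 k1' k2 k2'
  set a : ℂ := Gammaℝ s / Gammaℝ (s + I * u) * cexp (I * u * (Real.log T / 2 : ℝ)) with ha
  set b : ℂ := Gammaℝ (1 - s) / Gammaℝ (1 - s + I * u) * cexp (I * u * (Real.log T / 2 : ℝ)) with hb
  have hphase : I * u * (Real.log T / 2 : ℝ) + I * u * (Real.log T / 2 : ℝ) = (Real.pi * c : ℝ) * I := by
    rw [hu', dl]
    push_cast
    have : (Real.log T : ℂ) ≠ 0 := by exact_mod_cast hlog.ne'
    field_simp
    ring
  have e : rr (dl c T) s = a * b * cexp (-(Real.pi * c : ℝ) * I) := by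
    rw [ha, hb]
    have e1 : Gammaℝ s / Gammaℝ (s + I * u) * cexp (I * u * (Real.log T / 2 : ℝ)) *
        (Gammaℝ (1 - s) / Gammaℝ (1 - s + I * u) * cexp (I * u * (Real.log T / 2 : ℝ))) *
        cexp (-(Real.pi * c : ℝ) * I) =
        (Gammaℝ s / Gammaℝ (s + I * u)) * (Gammaℝ (1 - s) / Gammaℝ (1 - s + I * u)) *
        (cexp (I * u * (Real.log T / 2 : ℝ)) * cexp (I * u * (Real.log T / 2 : ℝ)) *
        cexp (-(Real.pi * c : ℝ) * I)) := by ring
    rw [e1, ← Complex.exp_add, ← Complex.exp_add, hphase]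
    have e2 : ((Real.pi * c : ℝ) : ℂ) * I + -((Real.pi * c : ℝ) : ℂ) * I = 0 := by ring
    rw [e2, Complex.exp_zero, mul_one]
    unfold rr
    rw [hh_eq, ← hu', show (1 : ℂ) - (s - I * (u : ℂ)) = 1 - s + I * (u : ℂ) by ring]
    rw [div_mul_div_comm]
  have e2 : rr (dl c T) s - cexp (-(Real.pi * c : ℝ) * I) =
      ((a - 1) * b + (b - 1)) * cexp (-(Real.pi * c : ℝ) * I) := by
    rw [e]; ring
  have hn1 : ‖cexp (-(Real.pi * c : ℝ) * I)‖ = 1 := by
    rw [Complex.norm_exp]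
    simp
  have hn2 : ‖cexp (I * u * (Real.log T / 2 : ℝ))‖ = 1 := by
    rw [Complex.norm_exp]
    simp
  have hnb : ‖b‖ ≤ Real.exp (C * u) := by
    rw [hb, norm_mul, hn2, mul_one]
    exact k2
  rw [e2, norm_mul, hn1, mul_one]
  have hCu : 0 ≤ C * u := by positivity
  have h1e : 1 ≤ Real.exp (C * u) := Real.one_le_exp hCu
  have step : ‖(a - 1) * b + (b - 1)‖ ≤ Real.exp (2 * (C * u)) - 1 := by
    calc _ ≤ ‖(a - 1) * b‖ + ‖b - 1‖ := norm_add_le _ _
      _ = ‖a - 1‖ * ‖b‖ + ‖b - 1‖ := by rw [norm_mul]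
      _ ≤ (Real.exp (C * u) - 1) * Real.exp (C * u) + (Real.exp (C * u) - 1) := by
        gcongr
      _ = Real.exp (2 * (C * u)) - 1 := by
        rw [two_mul, Real.exp_add]; ring
  refine step.trans ?_
  have hu1 : u ≤ 1 / 2 := by rw [hu']; linarith
  -- exp x - 1 ≤ x exp x
  have hx : ∀ x : ℝ, Real.exp x - 1 ≤ x * Real.exp x := by
    intro x
    have := Real.add_one_le_exp (-x)
    have h5 : Real.exp (-x) * Real.exp x = 1 := by rw [← Real.exp_add]; simp
    have h6 := Real.exp_pos x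
    nlinarith
  refine (hx _).trans ?_
  have hul : u * Real.log T = Real.pi * c := by
    rw [hu', dl]
    field_simp
  rw [le_div_iff₀ hlog]
  have h7 : Real.exp (2 * (C * u)) ≤ Real.exp C := by
    apply Real.exp_le_exp.mpr
    nlinarith
  calc 2 * (C * u) * Real.exp (2 * (C * u)) * Real.log T
      = 2 * C * (u * Real.log T) * Real.exp (2 * (C * u)) := by ring
    _ = 2 * C * (Real.pi * c) * Real.exp (2 * (C * u)) := by rw [hul]
    _ ≤ 2 * C * 8 * Real.exp C := by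
      have : Real.pi * c ≤ 8 := by
        have := Real.pi_lt_d2
        nlinarith [Real.pi_pos]
      gcongr
    _ = _ := by ring

/-- the Gamma factor of the kernel on the right half -/
theorem gg_bound : ∃ C : ℝ, 1 ≤ C ∧ ∀ (c H T : ℝ), 0 < c → c < 2 → Adm H T →
    ∀ s : ℂ, T ≤ s.im → s.im ≤ 2 * T → 1 / 2 ≤ s.re → s.re ≤ 5 / 2 →
    ‖Gammaℝ s * Gammaℝ (1 - s) / (Gammaℝ (s + hh (dl c T)) * Gammaℝ (s - hh (dl c T)))‖ ≤ C := by
  obtain ⟨C, hC, h⟩ := GamAux.shift
  obtain ⟨C2, hC2, h2'⟩ := GamAux.reflect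
  refine ⟨Real.exp C * C2, ?_, ?_⟩
  · have := Real.one_le_exp (show 0 ≤ C by linarith)
    nlinarith
  intro c H T hc hc1 hA s h1 h2 h3 h4
  have hT10 : 10 ≤ T := by linarith [hA.T_ge']
  have hd1 := hA.dl_le hc1
  have hd0 := hA.dl_pos hc
  have habs : |s.im| = s.im := abs_of_nonneg (by linarith)
  have habr : |s.re| = s.re := abs_of_nonneg (by linarith)
  set u : ℝ := dl c T / 2 with hu'
  have hu0 : 0 ≤ u := by rw [hu']; linarith
  have habsu : |u| = u := abs_of_nonneg hu0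
  have hu : |u| ≤ 1 := by
    rw [habsu]; linarith
  obtain ⟨_, k1, _⟩ := h s u T (by linarith) (by rw [habs]; linarith)
    (by rw [habs]; linarith) (by rw [habs]; linarith) (by rw [habs, habr]; linarith) hu
  obtain ⟨_, k2, _⟩ := h s (-u) T (by linarith) (by rw [habs]; linarith)
    (by rw [habs]; linarith) (by rw [habs]; linarith) (by rw [habs, habr]; linarith)
    (by rw [abs_neg]; exact hu)
  rw [abs_neg, habsu] at k2
  rw [habsu] at k1
  have k3 := h2' s (by rw [habs]; linarith) h3 h4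
  have hne : Gammaℝ s ≠ 0 := GR_ne (by linarith)
  have e : Gammaℝ s * Gammaℝ (1 - s) / (Gammaℝ (s + hh (dl c T)) * Gammaℝ (s - hh (dl c T))) =
      (Gammaℝ s / Gammaℝ (s + I * u)) * (Gammaℝ s / Gammaℝ (s + I * ((-u : ℝ) : ℂ))) *
      (Gammaℝ (1 - s) / Gammaℝ s) := by
    rw [hh_eq, ← hu', show s - I * (u : ℂ) = s + I * ((-u : ℝ) : ℂ) by push_cast; ring]
    rw [div_mul_div_comm, div_mul_div_comm]
    rw [show Gammaℝ s * Gammaℝ s * Gammaℝ (1 - s) = Gammaℝ s * (Gammaℝ s * Gammaℝ (1 - s)) by ring,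
      show Gammaℝ (s + I * ↑u) * Gammaℝ (s + I * ↑(-u)) * Gammaℝ s =
        Gammaℝ s * (Gammaℝ (s + I * ↑u) * Gammaℝ (s + I * ↑(-u))) by ring]
    rw [mul_div_mul_left _ _ hne]
  rw [e, norm_mul, norm_mul]
  have hb : Real.exp (C * u) ≤ Real.exp (C / 2) := by
    apply Real.exp_le_exp.mpr
    have : u ≤ 1 / 2 := by rw [hu']; linarith
    nlinarith
  calc _ ≤ Real.exp (C / 2) * Real.exp (C / 2) * C2 := by
        gcongr
        · exact k1.trans hb
        · exact k2.trans hb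
    _ = Real.exp C * C2 := by rw [← Real.exp_add]; ring_nf

end Pool.Agent.W192.SI
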