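import Pool.Agent.H382R2.GaussMV
import Pool.Agent.W192.SI.P0

open Complex Filter Topology Set MeasureTheory

namespace Pool.Agent.W192.SI

open SG SG.MVaux

/-- Gaussian mean value with shifts -/
theorem gauss_mv : ∃ T0 : ℝ, ∀ H T : ℝ, Adm H T → T0 ≤ T →
    ∀ a b t0 : ℝ,
    ‖(∫ t : ℝ, (Real.exp (-(t - t0) ^ 2 / (2 * dd H T ^ 2)) : ℂ) *
        AA (nn H T) (1 / 2 + I * (t + a)) * AA (nn H T) (1 / 2 - I * (t + b)))
      - (dd H T * Real.sqrt (2 * Real.pi) : ℝ) *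
        ∑ n ∈ Finset.Icc 1 (nn H T), (((ArithmeticFunction.moebius n : ℤ) : ℂ)) ^ 2 *
          (n : ℂ) ^ (-(1 : ℂ) - I * (a - b))‖ ≤ 1 := by
  obtain ⟨T0, hT0⟩ := eventually_atTop.mp (ev_small4' 4 (1 / 2) (1 / 3) (by norm_num) (by norm_num))
  refine ⟨T0, fun H T hA hT a b t0 => ?_⟩
  have hTpos : 0 < T := hA.T_pos
  have hT4 := hA.T_ge'
  have hD : 0 < dd H T := hA.dd_pos
  refine (general (nn H T) (dd H T) t0 a b hD).trans ?_
  have hN : (0 : ℝ) < nn H T := by linarith [hA.nn_big]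
  have hDT : dd H T ≤ T := by linarith [hA.dd_le_T]
  have hNT : (nn H T : ℝ) ≤ T := hA.nn_le_T
  have hs : Real.sqrt (2 * Real.pi) ≤ 3 := by
    rw [Real.sqrt_le_left (by norm_num)]
    have := Real.pi_lt_d2
    norm_num at this ⊢
    linarith
  have hexp : Real.exp (-(dd H T ^ 2 / (2 * (nn H T : ℝ) ^ 2))) ≤
      Real.exp (-(1 / 2) * Real.log T ^ 4) := by
    apply Real.exp_le_exp.mpr
    have h := hA.ratio2
    have e : dd H T ^ 2 / (2 * (nn H T : ℝ) ^ 2) = (1 / 2) * (dd H T ^ 2 / (nn H T : ℝ) ^ 2) := by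
      field_simp
    rw [e]
    linarith
  have hE : 0 ≤ Real.exp (-(1 / 2) * Real.log T ^ 4) := (Real.exp_pos _).le
  have h4 : T ^ (4 : ℝ) = T ^ 4 := by
    rw [show (4 : ℝ) = ((4 : ℕ) : ℝ) by norm_num, Real.rpow_natCast]
  have h0 := hT0 T hT
  rw [h4] at h0
  calc dd H T * Real.sqrt (2 * Real.pi) * ((nn H T : ℝ) ^ 2 *
        Real.exp (-(dd H T ^ 2 / (2 * (nn H T : ℝ) ^ 2))))
      ≤ T * 3 * (T ^ 2 * Real.exp (-(1 / 2) * Real.log T ^ 4)) := by
        apply mul_le_mul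
        · exact mul_le_mul hDT hs (Real.sqrt_nonneg _) hTpos.le
        · apply mul_le_mul _ hexp (Real.exp_pos _).le (by positivity)
          exact pow_le_pow_left₀ hN.le hNT 2
        · positivity
        · positivity
    _ ≤ 3 * (T ^ 4 * Real.exp (-(1 / 2) * Real.log T ^ 4)) := by
        have : T ^ 3 ≤ T ^ 4 := pow_le_pow_right₀ (by linarith) (by norm_num)
        nlinarith [mul_le_mul_of_nonneg_right this hE]
    _ ≤ 1 := by linarith

end Pool.Agent.W192.SI
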