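import Pool.Agent.H382R2.SqFree
import Pool.Agent.W192.SI.P0

open Complex Filter Topology Set MeasureTheory

namespace Pool.Agent.W192.SI

open SG

/-- `sin x ≥ x / 5` on `[0, 3π/4]` -/
theorem sin_ge (x : ℝ) (h0 : 0 ≤ x) (h1 : x ≤ 3 * Real.pi / 4) : x / 5 ≤ Real.sin x := by
  have hpi := Real.pi_pos
  rcases le_total x (Real.pi / 2) with h | h
  · have := Real.mul_le_sin h0 h
    have h2 := Real.pi_le_four
    have h3 : 1 / 5 ≤ 2 / Real.pi := by
      rw [div_le_div_iff₀ (by norm_num) hpi]; linarith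
    have := mul_le_mul_of_nonneg_right h3 h0
    linarith
  · have e : Real.sin x = Real.sin (Real.pi - x) := (Real.sin_pi_sub x).symm
    have h4 := Real.mul_le_sin (show 0 ≤ Real.pi - x by linarith) (by linarith)
    rw [e]
    have h2 := Real.pi_lt_d2
    have h3 := Real.pi_gt_three
    have h5 : 2 / Real.pi * (Real.pi / 4) ≤ 2 / Real.pi * (Real.pi - x) :=
      mul_le_mul_of_nonneg_left (by linarith) (by positivity)
    have h6 : 2 / Real.pi * (Real.pi / 4) = 1 / 2 := by field_simp; norm_num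
    linarith

/-- The oscillating sum: with `c (1 + θ') = 1 + ε`, `θ' = log N / log T ≤ 1`, `0 ≤ ε ≤ 1/2`. -/
theorem osc : ∃ c1 C : ℝ, 0 < c1 ∧ 0 < C ∧ ∀ (T ε : ℝ) (N : ℕ), 1 < T → 2 ≤ N →
    (N : ℝ) ≤ T → 0 ≤ ε → ε ≤ 1 / 2 →
    ∑ n ∈ Finset.Icc 1 N, ((ArithmeticFunction.moebius n : ℤ) : ℝ) ^ 2 / n *
      Real.sin (Real.pi * ((1 + ε) / (1 + Real.log N / Real.log T)) +
        dl ((1 + ε) / (1 + Real.log N / Real.log T)) T * Real.log n) ≤
      -c1 * ε * Real.log N + C := by
  obtain ⟨Cs, C1, hCs, hC1, hC⟩ := sqfree_sum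
  refine ⟨2 / 5 * Cs, 11 * C1, by positivity, by positivity, ?_⟩
  intro T ε N hT hN hNT hε hε1
  have hN1 : 1 ≤ N := by omega
  have hLT : 0 < Real.log T := Real.log_pos hT
  have hN2 : (2 : ℝ) ≤ N := by exact_mod_cast hN
  have hlN : 0 < Real.log N := Real.log_pos (by linarith)
  set θ : ℝ := Real.log N / Real.log T with hθ
  have hθ0 : 0 < θ := by positivity
  have hθ1 : θ ≤ 1 := by
    rw [hθ, div_le_one hLT]
    exact Real.log_le_log (by linarith) hNT
  set c : ℝ := (1 + ε) / (1 + θ) with hc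
  have hc0 : 0 < c := by positivity
  have hcθ : c * (1 + θ) = 1 + ε := by
    rw [hc]; field_simp
  have hc32 : c ≤ 3 / 2 := by
    rw [hc, div_le_iff₀ (by linarith)]; nlinarith
  have hpi := Real.pi_pos
  have hδ : 0 < dl c T := by rw [dl]; positivity
  have hab := osc_abel Cs C1 hC (Real.pi * c) (dl c T) hδ N hN1
  have hδN : dl c T * Real.log N = 2 * Real.pi * c * θ := by
    rw [dl, hθ]; field_simp
  have hcθle : c * θ ≤ 3 / 4 := by
    have : c * θ = (1 + ε) - c := by linarith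
    rw [this, hc]
    rw [sub_le_iff_le_add, ← sub_le_iff_le_add']
    rw [le_div_iff₀ (by linarith)]
    nlinarith
  have hcθ0 : 0 < c * θ := by positivity
  have hcos : Real.cos (Real.pi * c) - Real.cos (Real.pi * c + dl c T * Real.log N) =
      -(2 * Real.sin (Real.pi * ε) * Real.sin (Real.pi * (c * θ))) := by
    rw [hδN, Real.cos_sub_cos]
    have e1 : (Real.pi * c + (Real.pi * c + 2 * Real.pi * c * θ)) / 2 = Real.pi * ε + Real.pi := by
      have : (Real.pi * c + (Real.pi * c + 2 * Real.pi * c * θ)) / 2 = Real.pi * (c * (1 + θ)) := by ring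
      rw [this, hcθ]; ring
    have e2 : (Real.pi * c - (Real.pi * c + 2 * Real.pi * c * θ)) / 2 = -(Real.pi * (c * θ)) := by ring
    rw [e1, e2, Real.sin_add_pi, Real.sin_neg]
    ring
  have hs1 : Real.pi * (c * θ) / 5 ≤ Real.sin (Real.pi * (c * θ)) := by
    apply sin_ge _ (by positivity)
    nlinarith
  have hs2 : 2 * ε ≤ Real.sin (Real.pi * ε) := by
    have := Real.mul_le_sin (show 0 ≤ Real.pi * ε by positivity) (by nlinarith)
    have e : 2 / Real.pi * (Real.pi * ε) = 2 * ε := by field_simp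
    linarith
  have hprod : 2 * ε * (Real.pi * (c * θ) / 5) ≤ Real.sin (Real.pi * ε) * Real.sin (Real.pi * (c * θ)) :=
    mul_le_mul hs2 hs1 (by positivity) (by linarith)
  have hmain : Cs * (Real.cos (Real.pi * c) - Real.cos (Real.pi * c + dl c T * Real.log N)) / dl c T ≤
      -(2 / 5 * Cs) * ε * Real.log N := by
    rw [div_le_iff₀ hδ, hcos]
    have e : -(2 / 5 * Cs) * ε * Real.log N * dl c T = -(Cs * (2 * (2 * ε * (Real.pi * (c * θ) / 5)))) := by
      have : -(2 / 5 * Cs) * ε * Real.log N * dl c T = -(2 / 5 * Cs) * ε * (dl c T * Real.log N) := by ring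
      rw [this, hδN]
      ring
    rw [e]
    have : Cs * (2 * (2 * ε * (Real.pi * (c * θ) / 5))) ≤
        Cs * (2 * (Real.sin (Real.pi * ε) * Real.sin (Real.pi * (c * θ)))) := by gcongr
    linarith
  have herr : C1 * (1 + dl c T * Real.log N) ≤ 11 * C1 := by
    have h1 : dl c T * Real.log N ≤ 10 := by
      rw [hδN]
      have := Real.pi_le_four
      nlinarith
    nlinarith
  have := (abs_le.mp hab).2
  linarith

end Pool.Agent.W192.SI
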