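import Pool.Agent.H382R2.Hor
import Pool.Agent.W192.SI.Deep

open Complex Filter Topology Set MeasureTheory

namespace Pool.Agent.W192.SI

open SG SG.Hor

/-- choice of good heights -/
theorem good_U {H T : ℝ} (hA : Adm H T) (c a : ℝ) (hc : 0 < c) (hc1 : c < 2)
    (ha : T + 5 ≤ a) (ha' : a + 5 ≤ T + H) (hsep : SI.Sep (dl c T) H T) :
    ∃ U : ℝ, a ≤ U ∧ U ≤ a + 2 * dl c T ∧ ∀ s : ℂ, 0 < s.re → s.re < 1 → riemannZeta s = 0 →
      T ≤ s.im → s.im ≤ T + H →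
      dl c T / 2 ≤ |s.im - (U + dl c T / 2)| ∧ dl c T / 2 ≤ |s.im - (U - dl c T / 2)| := by
  have hδ : 0 < dl c T := hA.dl_pos hc
  have hδ2 : 2 * dl c T ≤ 4 := by linarith [hA.dl_le hc1]
  set δ := dl c T with hδdef
  by_cases h : ∃ s : ℂ, 0 < s.re ∧ s.re < 1 ∧ riemannZeta s = 0 ∧ a ≤ s.im ∧ s.im ≤ a + 2 * δ
  · obtain ⟨s0, h1, h2, h3, h4, h5⟩ := h
    refine ⟨s0.im, h4, h5, ?_⟩
    intro s k1 k2 k3 k4 k5
    by_cases hs : s = s0
    · subst hs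
      constructor
      · rw [show s.im - (s.im + δ / 2) = -(δ / 2) by ring, abs_neg, abs_of_pos (by linarith)]
      · rw [show s.im - (s.im - δ / 2) = (δ / 2) by ring, abs_of_pos (by linarith)]
    · have := hsep.sep s s0 k1 k2 k4 k5 k3 h1 h2 (by linarith) (by linarith) h3 hs
      constructor
      · rcases abs_cases (s.im - s0.im) with ⟨e, _⟩ | ⟨e, _⟩ <;>
        rcases abs_cases (s.im - (s0.im + δ / 2)) with ⟨e', _⟩ | ⟨e', _⟩ <;>
        rw [e] at this <;> rw [e'] <;> linarith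
      · rcases abs_cases (s.im - s0.im) with ⟨e, _⟩ | ⟨e, _⟩ <;>
        rcases abs_cases (s.im - (s0.im - δ / 2)) with ⟨e', _⟩ | ⟨e', _⟩ <;>
        rw [e] at this <;> rw [e'] <;> linarith
  · push Not at h
    refine ⟨a + δ, by linarith, by linarith, ?_⟩
    intro s k1 k2 k3 k4 k5
    by_cases hs : a ≤ s.im
    · have := h s k1 k2 k3 hs
      constructor
      · rw [abs_of_pos (by linarith)]
        linarith
      · rw [abs_of_pos (by linarith)]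
        linarith
    · push Not at hs
      constructor
      · rw [abs_of_neg (by linarith)]
        linarith
      · rw [abs_of_neg (by linarith)]
        linarith

/-- lower bound at one of the two points -/
lemma lower {H T : ℝ} (hA : Adm H T) (c C1 t1 : ℝ) (hC1 : 1 ≤ C1) (hc : 1 / 2 ≤ c) (hc1 : c < 2)
    (hz : ∀ t k : ℝ, t1 ≤ t → 0 < k → k ≤ 1 / 2 →
    (∀ s : ℂ, 0 < s.re → s.re < 1 → |s.im - t| ≤ 2 → riemannZeta s = 0 →
      s.re = 1 / 2 ∧ deriv riemannZeta s ≠ 0 ∧ k ≤ |s.im - t|) →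
    (∀ s s' : ℂ, 0 < s.re → s.re < 1 → |s.im - t| ≤ 2 → riemannZeta s = 0 →
      0 < s'.re → s'.re < 1 → |s'.im - t| ≤ 2 → riemannZeta s' = 0 → s ≠ s' →
      k ≤ |s.im - s'.im|) →
    ∀ σ : ℝ, 1 / 2 ≤ σ → σ ≤ 5 / 2 →
      Real.exp (-C1 * (Real.log t + 1 / k * Real.log (1 / k))) ≤ ‖riemannZeta (⟨σ, t⟩ : ℂ)‖)
    (ht1 : t1 ≤ T)
    (hsep : SI.Sep (dl c T) H T) (t : ℝ) (h1 : T + 2 ≤ t) (h2 : t + 2 ≤ T + H)
    (h3 : ∀ s : ℂ, 0 < s.re → s.re < 1 → riemannZeta s = 0 → T ≤ s.im → s.im ≤ T + H →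
      dl c T / 2 ≤ |s.im - t|) (σ : ℝ) (hσ : 1 / 2 ≤ σ) (hσ' : σ ≤ 5 / 2) :
    riemannZeta (⟨σ, t⟩ : ℂ) ≠ 0 ∧
    ‖(riemannZeta (⟨σ, t⟩ : ℂ))⁻¹‖ ≤ Real.exp (3 * C1 * Real.log T ^ 2) := by
  have hpi := Real.pi_gt_three
  have hδ : 0 < dl c T := hA.dl_pos (by linarith)
  have hL100 := hA.log_ge
  have hT : 100 ≤ T := by linarith [hA.T_ge']
  have hHT := hA.hi
  have hlogpos : 0 < Real.log T := by linarith
  have hk : dl c T / 2 ≤ 1 / 2 := by linarith [hA.dl_le hc1]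
  have key := hz t (dl c T / 2) (by linarith) (by linarith) hk
    (by
      intro s k1 k2 k3 k4
      rw [abs_le] at k3
      have a1 : T ≤ s.im := by linarith
      have a2 : s.im ≤ T + H := by linarith
      exact ⟨hsep.line s k1 k2 a1 a2 k4, hsep.simple s k1 k2 a1 a2 k4, h3 s k1 k2 k4 a1 a2⟩)
    (by
      intro s s' k1 k2 k3 k4 l1 l2 l3 l4 hne
      rw [abs_le] at k3 l3
      have := hsep.sep s s' k1 k2 (by linarith) (by linarith) k4 l1 l2 (by linarith) (by linarith)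
        l4 hne
      linarith) σ hσ hσ'
  have hpos : 0 < ‖riemannZeta (⟨σ, t⟩ : ℂ)‖ := (Real.exp_pos _).trans_le key
  refine ⟨norm_pos_iff.mp hpos, ?_⟩
  rw [norm_inv, inv_le_comm₀ hpos (Real.exp_pos _), ← Real.exp_neg]
  refine le_trans ?_ key
  apply Real.exp_le_exp.mpr
  have b1 : Real.log t ≤ 2 * Real.log T := by
    have : Real.log t ≤ Real.log (T ^ 2) := by
      apply Real.log_le_log (by linarith)
      nlinarith
    rw [Real.log_pow] at this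
    push_cast at this
    exact this
  have b2 : 1 / (dl c T / 2) ≤ Real.log T := by
    have e : 1 / (dl c T / 2) = Real.log T / (Real.pi * c) := by
      unfold dl
      field_simp
    rw [e, div_le_iff₀ (by positivity)]
    have : 1 ≤ Real.pi * c := by nlinarith
    nlinarith
  have b3 : 0 < 1 / (dl c T / 2) := by positivity
  have b4 : Real.log (1 / (dl c T / 2)) ≤ 1 / (dl c T / 2) := by
    have := Real.log_le_sub_one_of_pos b3
    linarith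
  have b5 : 1 / (dl c T / 2) * Real.log (1 / (dl c T / 2)) ≤ Real.log T * Real.log T := by
    apply mul_le_mul b2 (b4.trans b2) _ hlogpos.le
    apply Real.log_nonneg
    rw [le_div_iff₀ (by linarith)]
    linarith
  have b6 : Real.log T ≤ Real.log T * Real.log T := by nlinarith
  have b7 : Real.log t + 1 / (dl c T / 2) * Real.log (1 / (dl c T / 2)) ≤ 3 * Real.log T ^ 2 := by
    nlinarith
  have b8 : C1 * (Real.log t + 1 / (dl c T / 2) * Real.log (1 / (dl c T / 2))) ≤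
      C1 * (3 * Real.log T ^ 2) := mul_le_mul_of_nonneg_left b7 (by linarith)
  linarith

lemma AA_le_right {H T : ℝ} (hA : Adm H T) (s : ℂ) (hs : 0 ≤ s.re) :
    ‖AA (nn H T) s‖ ≤ T := by
  refine (AA_bound _ _).trans ?_
  rw [max_eq_left (by linarith), add_zero, Real.rpow_one]
  exact hA.nn_le_T

lemma AA_le_left {H T : ℝ} (hA : Adm H T) (s : ℂ) (hs : -(3 / 2) ≤ s.re) :
    ‖AA (nn H T) s‖ ≤ T ^ 3 := by
  refine (AA_bound _ _).trans ?_
  have hT := hA.T_ge'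
  have hm : 0 ≤ 1 + max 0 (-s.re) := by
    have := le_max_left 0 (-s.re)
    linarith
  have hm2 : 1 + max 0 (-s.re) ≤ 3 := by
    have : max 0 (-s.re) ≤ 3 / 2 := max_le (by norm_num) (by linarith)
    linarith
  calc (nn H T : ℝ) ^ (1 + max 0 (-s.re)) ≤ T ^ (1 + max 0 (-s.re)) :=
        Real.rpow_le_rpow (by positivity) hA.nn_le_T hm
    _ ≤ T ^ (3 : ℝ) := Real.rpow_le_rpow_of_exponent_le (by linarith) hm2
    _ = T ^ 3 := by norm_cast

/-- everything on the right half of a good segment -/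
lemma core :
    ∃ T0 : ℝ, ∀ c H T : ℝ, 1 / 2 ≤ c → c < 2 → Adm H T → T0 ≤ T → SI.Sep (dl c T) H T → ∀ U : ℝ,
    ((T + 5 ≤ U ∧ U ≤ T + 20) ∨ (T + H - 20 ≤ U ∧ U ≤ T + H - 5)) →
    (∀ s : ℂ, 0 < s.re → s.re < 1 → riemannZeta s = 0 → T ≤ s.im → s.im ≤ T + H →
      dl c T / 2 ≤ |s.im - (U + dl c T / 2)| ∧ dl c T / 2 ≤ |s.im - (U - dl c T / 2)|) →
    ∀ σ : ℝ, 1 / 2 ≤ σ → σ ≤ 5 / 2 →
      ‖PP (T + H / 2) (dd H T) (dl c T) (⟨σ, U⟩ : ℂ)‖ ≤ 1 / 100 ∧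
      ‖PP (T + H / 2) (dd H T) (dl c T) (⟨σ, U⟩ : ℂ) *
        (GG (nn H T) ((⟨σ, U⟩ : ℂ) - hh (dl c T)) *
         GG (nn H T) (1 - ((⟨σ, U⟩ : ℂ) - hh (dl c T))))‖ ≤ 1 / 100 ∧
      ‖PP (T + H / 2) (dd H T) (dl c T) (⟨σ, U⟩ : ℂ) *
         GG (nn H T) (1 - ((⟨σ, U⟩ : ℂ) - hh (dl c T)))‖ ≤ 1 / 100 ∧
      ‖PP (T + H / 2) (dd H T) (dl c T) (⟨σ, U⟩ : ℂ) *
         GG (nn H T) ((⟨σ, U⟩ : ℂ) - hh (dl c T))‖ ≤ 1 / 100 ∧
      ‖phi (T + H / 2) (dd H T) (⟨σ, U⟩ : ℂ) * rr (dl c T) (⟨σ, U⟩ : ℂ) *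
        (AA (nn H T) ((⟨σ, U⟩ : ℂ) + hh (dl c T)) *
          AA (nn H T) (1 - ((⟨σ, U⟩ : ℂ) - hh (dl c T))))‖ ≤ 1 / 100 := by
  obtain ⟨C1, t1, hC1, ht1, hz⟩ := zeta_lower
  obtain ⟨Cg, Ag, hCg, hAg, hgr⟩ := zeta_growth
  obtain ⟨C2, hC2, hgg⟩ := SI.gg_bound
  obtain ⟨C3, hC3, hrr⟩ := SI.rr_bound
  have ev1 := ev_small4 (8 + 2 * Ag + 6 * C1) (1 / 40) (1 / 100) (by norm_num) (by norm_num)
  have ev := ev1.and ((eventually_ge_atTop t1).and
    ((eventually_ge_atTop C2).and ((eventually_ge_atTop C3).and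
      (eventually_ge_atTop Cg))))
  obtain ⟨T0, hT0⟩ := eventually_atTop.mp ev
  refine ⟨T0, ?_⟩
  intro c H T hc hc1 hA hT hsep U hU hzer σ hσ hσ'
  have hT100 : 100 ≤ T := by linarith [hA.T_ge']
  obtain ⟨e1, e4, e8, e9, e10⟩ := hT0 T hT
  have hc0 : 0 < c := by linarith
  have hδ : 0 < dl c T := hA.dl_pos hc0
  have hlogpos : 0 < Real.log T := by linarith [hA.log_ge]
  have hδ1 : dl c T ≤ 1 := by linarith [hA.dl_le hc1]
  have hδabs : |dl c T| ≤ 1 := by rwa [abs_of_pos hδ]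
  have hHT := hA.hi
  have hHge := hA.H_ge
  norm_num at hHge
  have e3 := hA.one_le_dd
  have hUa : T + 5 ≤ U := by rcases hU with h | h <;> linarith [h.1]
  have hUb : U ≤ T + H - 5 := by rcases hU with h | h <;> linarith [h.2]
  have hUc : U ≤ T + 20 ∨ T + H - 20 ≤ U := by
    rcases hU with h | h
    · exact Or.inl h.2
    · exact Or.inr h.1
  set s : ℂ := ⟨σ, U⟩ with hs
  set δ := dl c T with hδdef
  have hsre : s.re = σ := rfl
  have hsim : s.im = U := rfl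
  have hadd : s + hh δ = ⟨σ, U + δ / 2⟩ := add_hh σ U δ
  have hsub : s - hh δ = ⟨σ, U - δ / 2⟩ := sub_hh σ U δ
  set E := Real.exp (3 * C1 * Real.log T ^ 2) with hE
  have hE1 : 1 ≤ E := by
    rw [hE]
    apply Real.one_le_exp
    positivity
  obtain ⟨zp0, zp⟩ := SI.lower hA c C1 t1 hC1 hc hc1 hz e4 hsep (U + δ / 2) (by linarith)
    (by linarith) (fun s k1 k2 k3 k4 k5 => (hzer s k1 k2 k3 k4 k5).1) σ hσ hσ'
  obtain ⟨zm0, zm⟩ := SI.lower hA c C1 t1 hC1 hc hc1 hz e4 hsep (U - δ / 2) (by linarith)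
    (by linarith) (fun s k1 k2 k3 k4 k5 => (hzer s k1 k2 k3 k4 k5).2) σ hσ hσ'
  rw [← hadd] at zp0 zp
  rw [← hsub] at zm0 zm
  obtain ⟨bk1, bk2⟩ := book T Ag C1 C2 C3 Cg E hT100 hAg hC1 hC2 hC3 hCg e8 e9 e10 hE
  set W := Real.exp ((8 + 2 * Ag + 6 * C1) * Real.log T ^ 2) with hW
  set ε := Real.exp (-(1 / 40) * Real.log T ^ 4) with hε
  have hε0 : 0 < ε := Real.exp_pos _
  rw [mul_comm] at e1
  have b_phi : ‖phi (T + H / 2) (dd H T) s‖ ≤ ε := SI.phi_tiny hA s (by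
    rw [hsre, abs_of_nonneg (by linarith)]
    linarith) (by rw [hsim]; exact hUc)
  have b_gg := hgg c H T hc0 hc1 hA s (by rw [hsim]; linarith) (by rw [hsim]; linarith) (by rw [hsre]; exact hσ)
    (by rw [hsre]; exact hσ')
  have b_rr := hrr c H T hc0 hc1 hA s (by rw [hsim]; linarith) (by rw [hsim]; linarith) (by
    rw [hsre, abs_of_nonneg (by linarith)]
    linarith)
  -- bounds
  have hT0' : 0 < T := by linarith
  have b_PP : ‖PP (T + H / 2) (dd H T) δ s‖ ≤ ε * (C2 * E ^ 2) := by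
    rw [Hor.PP_eq _ _ _ s (by rw [hsre]; linarith) (by rw [hsim]; linarith) hδabs]
    rw [norm_mul, norm_mul, norm_mul]
    calc _ ≤ ε * C2 * E * E := by gcongr
      _ = _ := by ring
  have b_Aleft : ‖AA (nn H T) (1 - (s - hh δ))‖ ≤ T ^ 3 := by
    apply SI.AA_le_left hA
    rw [hsub]
    simp only [sub_re, one_re]
    linarith
  have b_Aplus : ‖AA (nn H T) (s + hh δ)‖ ≤ T := by
    apply SI.AA_le_right hA
    rw [hadd]
    simp only
    linarith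
  have b_Aminus : ‖AA (nn H T) (s - hh δ)‖ ≤ T := by
    apply SI.AA_le_right hA
    rw [hsub]
    simp only
    linarith
  have b_QQ : ‖QQ (T + H / 2) (dd H T) δ (nn H T) s‖ ≤ ε * (C3 * T ^ 3 * E) := by
    unfold QQ
    rw [div_eq_mul_inv, norm_mul, norm_mul, norm_mul]
    calc _ ≤ ε * C3 * T ^ 3 * E := by gcongr
      _ = _ := by ring
  have b_zeta : ‖riemannZeta (s - hh δ)‖ ≤ Cg * (2 * T) ^ Ag := by
    have him : |(s - hh δ).im| = U - δ / 2 := by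
      rw [hsub]
      simp only
      rw [abs_of_pos (by linarith)]
    have := hgr (s - hh δ) (by rw [hsub]; simp only; linarith) (by rw [hsub]; simp only; linarith)
      (by rw [him]; linarith)
    rw [him] at this
    refine this.trans ?_
    apply mul_le_mul_of_nonneg_left _ (by linarith)
    exact Real.rpow_le_rpow (by linarith) (by linarith) (by linarith)
  have b_GG : ‖GG (nn H T) (s - hh δ)‖ ≤ Cg * (2 * T) ^ Ag * T + 1 := by
    unfold GG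
    refine (norm_sub_le _ _).trans ?_
    rw [norm_one, norm_mul]
    gcongr
  set Y := Cg * (2 * T) ^ Ag * T + 1 with hY
  have hY1 : 1 ≤ Y := by
    have : 0 ≤ Cg * (2 * T) ^ Ag * T := by positivity
    linarith
  set X := C2 * E ^ 2 + C3 * T ^ 3 * E with hX
  have hX1 : 0 ≤ C2 * E ^ 2 := by positivity
  have hX2 : 0 ≤ C3 * T ^ 3 * E := by positivity
  have hX3 : C2 * E ^ 2 ≤ X := by linarith
  have hX0 : 0 ≤ X := by linarith
  have hXY : X ≤ X * Y := by nlinarith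
  have hPQ := PQ (T + H / 2) (dd H T) δ hδabs (nn H T) s (by rw [hsim]; linarith) zp0 zm0
    (by rw [hsre]; linarith)
  have b_PG : ‖PP (T + H / 2) (dd H T) δ s * GG (nn H T) (1 - (s - hh δ))‖ ≤ ε * X := by
    rw [hPQ]
    refine (norm_sub_le _ _).trans ?_
    calc _ ≤ ε * (C3 * T ^ 3 * E) + ε * (C2 * E ^ 2) := add_le_add b_QQ b_PP
      _ = _ := by rw [hX]; ring
  have hfin : ε * (X * Y) ≤ 1 / 100 :=
    (mul_le_mul_of_nonneg_left bk1 hε0.le).trans e1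
  refine ⟨?_, ?_, ?_, ?_, ?_⟩
  · calc _ ≤ ε * (C2 * E ^ 2) := b_PP
      _ ≤ ε * (X * Y) := mul_le_mul_of_nonneg_left (hX3.trans hXY) hε0.le
      _ ≤ _ := hfin
  · rw [mul_left_comm, norm_mul]
    calc _ ≤ Y * (ε * X) := mul_le_mul b_GG b_PG (norm_nonneg _) (by linarith)
      _ = ε * (X * Y) := by ring
      _ ≤ _ := hfin
  · calc _ ≤ ε * X := b_PG
      _ ≤ ε * (X * Y) := mul_le_mul_of_nonneg_left hXY hε0.le
      _ ≤ _ := hfin
  · rw [norm_mul]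
    calc _ ≤ (ε * (C2 * E ^ 2)) * Y := mul_le_mul b_PP b_GG (norm_nonneg _) (by positivity)
      _ ≤ (ε * X) * Y := by
          apply mul_le_mul_of_nonneg_right _ (by linarith)
          exact mul_le_mul_of_nonneg_left hX3 hε0.le
      _ = ε * (X * Y) := by ring
      _ ≤ _ := hfin
  · rw [norm_mul, norm_mul, norm_mul]
    calc _ ≤ (ε * C3) * (T * T ^ 3) := by gcongr
      _ = ε * (C3 * T * T ^ 3) := by ring
      _ ≤ ε * W := mul_le_mul_of_nonneg_left bk2 hε0.le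
      _ ≤ _ := e1


/-- on a good horizontal segment everything is tiny -/
theorem horizontals :
    ∃ T0 : ℝ, ∀ c H T : ℝ, 1 / 2 ≤ c → c < 2 → Adm H T → T0 ≤ T → SI.Sep (dl c T) H T → ∀ U : ℝ,
    ((T + 5 ≤ U ∧ U ≤ T + 20) ∨ (T + H - 20 ≤ U ∧ U ≤ T + H - 5)) →
    (∀ s : ℂ, 0 < s.re → s.re < 1 → riemannZeta s = 0 → T ≤ s.im → s.im ≤ T + H →
      dl c T / 2 ≤ |s.im - (U + dl c T / 2)| ∧ dl c T / 2 ≤ |s.im - (U - dl c T / 2)|) →
    (∀ σ : ℝ, -3 / 2 ≤ σ → σ ≤ 5 / 2 →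
      ‖PP (T + H / 2) (dd H T) (dl c T) (⟨σ, U⟩ : ℂ)‖ ≤ 1 / 100 ∧
      ‖PP (T + H / 2) (dd H T) (dl c T) (⟨σ, U⟩ : ℂ) *
        (GG (nn H T) ((⟨σ, U⟩ : ℂ) - hh (dl c T)) *
         GG (nn H T) (1 - ((⟨σ, U⟩ : ℂ) - hh (dl c T))))‖ ≤ 1 / 100 ∧
      ‖PP (T + H / 2) (dd H T) (dl c T) (⟨σ, U⟩ : ℂ) *
         GG (nn H T) (1 - ((⟨σ, U⟩ : ℂ) - hh (dl c T)))‖ ≤ 1 / 100) ∧
    (∀ σ : ℝ, 1 / 2 ≤ σ → σ ≤ 5 / 2 →
      ‖phi (T + H / 2) (dd H T) (⟨σ, U⟩ : ℂ) * rr (dl c T) (⟨σ, U⟩ : ℂ) *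
        (AA (nn H T) ((⟨σ, U⟩ : ℂ) + hh (dl c T)) *
          AA (nn H T) (1 - ((⟨σ, U⟩ : ℂ) - hh (dl c T))))‖ ≤ 1 / 100) := by
  obtain ⟨T0, hcore⟩ := SI.core
  refine ⟨T0, ?_⟩
  intro c H T hc hc1 hA hT hsep U hU hzer
  have hc' := hcore c H T hc hc1 hA hT hsep U hU hzer
  have hT4 := hA.T_ge'
  have hHge := hA.H_ge
  norm_num at hHge
  refine ⟨?_, fun σ h1 h2 => (hc' σ h1 h2).2.2.2.2⟩
  intro σ h1 h2
  rcases le_or_gt (1 / 2) σ with h | h
  · obtain ⟨a1, a2, a3, -, -⟩ := hc' σ h h2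
    exact ⟨a1, a2, a3⟩
  · obtain ⟨a1, a2, a3, a4, -⟩ := hc' (1 - σ) (by linarith) (by linarith)
    set s' : ℂ := ⟨1 - σ, U⟩ with hs'
    set s : ℂ := ⟨σ, U⟩ with hs
    set δ := dl c T with hδ
    have hUpos : 100 ≤ U := by rcases hU with h | h <;> linarith [h.1]
    have e1 : s = 1 - (starRingEnd ℂ) s' := by
      apply Complex.ext <;> simp [hs, hs']
    have e2 : s - hh δ = 1 - (starRingEnd ℂ) (s' - hh δ) := by
      rw [map_sub, conj_hh, e1]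
      ring
    have e3 : 1 - (s - hh δ) = (starRingEnd ℂ) (s' - hh δ) := by
      rw [e2]
      ring
    have e4 : s - hh δ = (starRingEnd ℂ) (1 - (s' - hh δ)) := by
      rw [e2, map_sub (starRingEnd ℂ) 1 (s' - hh δ), map_one]
    have him1 : (s' - hh δ).im ≠ 0 := by
      have hδ2 : 2 * δ ≤ 4 := by linarith [hA.dl_le hc1]
      rw [hs', sub_hh]
      simp only
      intro h
      linarith
    have hne1 : s' - hh δ ≠ 1 := by
      intro h
      rw [h] at him1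
      simp at him1
    have hne2 : 1 - (s' - hh δ) ≠ 1 := by
      intro h
      have : (1 - (s' - hh δ)).im = 0 := by rw [h]; simp
      rw [sub_im, one_im] at this
      apply him1
      linarith
    have p1 : ‖PP (T + H / 2) (dd H T) δ s‖ = ‖PP (T + H / 2) (dd H T) δ s'‖ := by
      rw [e1, PP_symm _ _ _ s' (by rw [abs_of_nonneg (by simp only [hs']; linarith)]; simp only [hs']; linarith), Complex.norm_conj]
    have p2 : ‖GG (nn H T) (s - hh δ)‖ = ‖GG (nn H T) (1 - (s' - hh δ))‖ := by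
      rw [e4, GG_symm _ _ hne2, Complex.norm_conj]
    have p3 : ‖GG (nn H T) (1 - (s - hh δ))‖ = ‖GG (nn H T) (s' - hh δ)‖ := by
      rw [e3, GG_symm _ _ hne1, Complex.norm_conj]
    refine ⟨?_, ?_, ?_⟩
    · rw [p1]
      exact a1
    · rw [norm_mul, norm_mul, p1, p2, p3]
      rw [norm_mul, norm_mul] at a2
      rw [mul_comm ‖GG (nn H T) (1 - (s' - hh δ))‖]
      exact a2
    · rw [norm_mul, p1, p3]
      rw [norm_mul] at a4
      exact a4

end Pool.Agent.W192.SI
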