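import Pool.Agent.H382R2.Main
import Pool.Agent.W192.SI.MainNeg
import Pool.Agent.W192.SI.Vert
import Pool.Agent.W192.SI.Nodes
import Pool.Agent.W192.SI.Hor

open Complex Filter Topology Set MeasureTheory

namespace Pool.Agent.W192.SI

open SG SG.Asm

/-- the main theorem: the zeros of zeta in `[T, T + H]` cannot all be simple, on the line and
separated by more than `(2π / log (T N)) (1 + ε)`, `N = H / (log T)^4`, if `ε log N` is large -/
theorem no_sep : ∃ T0 C : ℝ, 0 < C ∧ ∀ ε H T : ℝ, 0 ≤ ε → ε ≤ 1 / 2 → Adm H T → T0 ≤ T →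
    C < ε * Real.log (nn H T) → ¬ SI.Sep (dl (cc ε H T) T) H T := by
  obtain ⟨c1, C0, Ta, hc1', hC0, hmain⟩ := SI.main_neg
  obtain ⟨C, Tb, hC, hvert⟩ := SI.vert_P
  obtain ⟨Tc, hhor⟩ := SI.horizontals
  refine ⟨max Ta (max Tb Tc), (2 * C + C0) / c1, by positivity, ?_⟩
  intro ε H T hε0 hε1 hA hT e1 hS
  have e3 : Ta ≤ T := (le_max_left _ _).trans hT
  have e4 : Tb ≤ T := ((le_max_left _ _).trans (le_max_right _ _)).trans hT
  have e5 : Tc ≤ T := ((le_max_right _ _).trans (le_max_right _ _)).trans hT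
  have e6 : 100 ≤ T := by linarith [hA.T_ge']
  have hHT := hA.hi
  have hHge := hA.H_ge
  norm_num at hHge
  obtain ⟨hcc1, hcc2⟩ := cc_facts hA hε0 hε1
  have hneg0 := hmain ε H T hε0 hε1 hA e3
  set c := cc ε H T with hcdef
  have hc0 : 0 < c := by linarith
  have hlog : 0 < Real.log T := Real.log_pos (by linarith)
  have hδ : 0 < dl c T := hA.dl_pos hc0
  have hδ1 : dl c T ≤ 1 := by linarith [hA.dl_le hcc2]
  have hδ14 := hA.dl_le hcc2
  have hδabs : |dl c T| ≤ 1 := by rwa [abs_of_pos hδ]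
  obtain ⟨U1, hU1a, hU1b, hU1z⟩ := SI.good_U hA c (T + 6) hc0 hcc2 (by linarith) (by linarith) hS
  obtain ⟨U2, hU2a, hU2b, hU2z⟩ := SI.good_U hA c (T + H - 10) hc0 hcc2 (by linarith) (by linarith) hS
  have hD1 : 1 ≤ dd H T := by linarith [hA.one_le_dd]
  obtain ⟨H1, H1'⟩ := hhor c H T hcc1 hcc2 hA e5 hS U1 (Or.inl ⟨by linarith, by linarith⟩) hU1z
  obtain ⟨H2, H2'⟩ := hhor c H T hcc1 hcc2 hA e5 hS U2 (Or.inr ⟨by linarith, by linarith⟩) hU2z
  obtain ⟨v1, v2, v3, v4⟩ := hvert c H T hc0 hcc2 hA e4 U1 U2 (by linarith) (by linarith) (by linarith)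
    (by linarith)
  have hneg := hneg0 U1 U2 (by linarith) (by linarith) (by linarith) (by linarith)
  obtain ⟨Z1, Z2, v, v', hv, hv', hz1, hz2, h10, h10', hid⟩ := SI.nodes c H T (T + H / 2) (dd H T)
    U1 U2 e6 hδ hδ1 hS (by linarith) (by linarith) (by linarith) hU1z hU2z
  set δ := dl c T with hδdef
  set t0 := T + H / 2 with ht0
  set D := dd H T with hD
  set N := nn H T with hN
  have hU12 : U1 ≤ U2 := by linarith
  have hpi := Real.pi_gt_three
  -- symmetric points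
  have conjpt : ∀ t : ℝ, (⟨-3 / 2, t⟩ : ℂ) = 1 - (starRingEnd ℂ) (⟨5 / 2, t⟩ : ℂ) := by
    intro t
    apply Complex.ext
    · simp only [sub_re, one_re, conj_re]
      norm_num
    · simp
  have conj1 : ∀ s : ℂ, 1 - (starRingEnd ℂ) s - hh δ = 1 - (starRingEnd ℂ) (s - hh δ) := by
    intro s
    rw [map_sub, conj_hh']
    ring
  have conj2 : ∀ s : ℂ, 1 - (1 - (starRingEnd ℂ) s - hh δ) = (starRingEnd ℂ) (s - hh δ) := by
    intro s
    rw [map_sub, conj_hh']
    ring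
  have ne1 : ∀ s : ℂ, s.im ≠ 0 → s ≠ 1 := by
    intro s h h'
    rw [h'] at h
    simp at h
  have imsub : ∀ s : ℂ, (s - hh δ).im = s.im - δ / 2 := fun s => by rw [sub_im, hh_im]
  have imone : ∀ s : ℂ, (1 - (s - hh δ)).im = -(s.im - δ / 2) := fun s => by
    rw [sub_im, one_im, imsub]
    ring
  -- (1)
  set V1 : ℝ := ∑ g ∈ Z1, v g with hV1
  set V2 : ℝ := ∑ g ∈ Z2, v' g with hV2
  set q : ℝ → ℂ := fun g => GG N (1 / 2 + I * g - hh δ - hh δ) with hq
  set B : ℝ := ∑ g ∈ Z2, v' g * ‖q g‖ ^ 2 with hB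
  set Γ : ℂ := ∑ g ∈ Z2, (v' g : ℂ) * (starRingEnd ℂ) (q g) with hΓ
  have hV1nn : 0 ≤ V1 := Finset.sum_nonneg fun g hg => (hv g hg).le
  have id1 := hid (fun _ => 1) (fun s _ => analyticAt_const)
  have r1 : rectI (fun s => PP t0 D δ s * 1) (-3 / 2) (5 / 2) U1 U2 =
      ((-(2 * Real.pi * (V1 - V2)) : ℝ) : ℂ) := by
    rw [id1]
    simp only [mul_one]
    rw [← Finset.mul_sum, ← Finset.mul_sum, ← mul_sub, ← Complex.ofReal_sum, ← Complex.ofReal_sum]
    rw [← hV1, ← hV2]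
    push_cast
    linear_combination (2 * (Real.pi : ℂ) * (V1 - V2)) * I_mul_I
  have b1 : ‖rectI (fun s => PP t0 D δ s * 1) (-3 / 2) (5 / 2) U1 U2‖ ≤
      2 * (1 / 100 * (5 / 2 - -3 / 2)) + 2 * (C * D) := by
    apply rect_norm _ _ _ _ _ _ _ (by norm_num)
    · intro σ ha hb
      rw [mul_one]
      exact (H1 σ ha hb).1
    · intro σ ha hb
      rw [mul_one]
      exact (H2 σ ha hb).1
    · simp only [mul_one]
      exact v1
    · simp only [mul_one]
      refine le_trans (le_of_eq ?_) v1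
      apply integral_conj' _ _ _ _ hU12
      intro t ht1 ht2
      rw [conjpt t]
      exact PP_symm t0 D δ _ (by
        simp only
        rw [abs_of_pos (by linarith)]
        linarith)
  have c1a : |V1 - V2| ≤ C * D := by
    rw [r1, Complex.norm_real, Real.norm_eq_abs, abs_neg, abs_mul, abs_of_pos (by positivity)] at b1
    have hCD : 1 ≤ C * D := one_le_mul_of_one_le_of_one_le hC hD1
    by_contra hcon
    push Not at hcon
    have : 2 * Real.pi * (C * D) < 2 * Real.pi * |V1 - V2| :=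
      mul_lt_mul_of_pos_left hcon (by positivity)
    nlinarith
  -- (2)
  have an2 : ∀ s ∈ Set.Icc (-3 / 2 : ℝ) (5 / 2) ×ℂ Set.Icc U1 U2,
      AnalyticAt ℂ (fun s => GG N (s - hh δ) * GG N (1 - (s - hh δ))) s := by
    intro s hs
    have him := rect_im hs
    apply AnalyticAt.mul
    · apply AnalyticAt.comp' (g := GG N) (f := fun s => s - hh δ)
      · exact GG_analytic N _ (ne1 _ (by rw [imsub]; intro h; linarith))
      · fun_prop
    · apply AnalyticAt.comp' (g := GG N) (f := fun s => 1 - (s - hh δ))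
      · exact GG_analytic N _ (ne1 _ (by rw [imone]; intro h; linarith))
      · fun_prop
  have an3 : ∀ s ∈ Set.Icc (-3 / 2 : ℝ) (5 / 2) ×ℂ Set.Icc U1 U2,
      AnalyticAt ℂ (fun s => GG N (1 - (s - hh δ))) s := by
    intro s hs
    have him := rect_im hs
    apply AnalyticAt.comp' (g := GG N) (f := fun s => 1 - (s - hh δ))
    · exact GG_analytic N _ (ne1 _ (by rw [imone]; intro h; linarith))
    · fun_prop
  -- values at the nodes
  have halfconj : ∀ g : ℝ, 1 - (1 / 2 + I * (g : ℂ)) = (starRingEnd ℂ) (1 / 2 + I * (g : ℂ)) := by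
    intro g
    rw [half_eq]
    apply Complex.ext
    · simp only [sub_re, one_re, conj_re]
      norm_num
    · simp
  have nval1 : ∀ g ∈ Z1, GG N (1 / 2 + I * g + hh δ - hh δ) = -1 := by
    intro g hg
    rw [add_sub_cancel_right]
    exact GG_of_zero N _ (hz1 g hg)
  have nval1' : ∀ g ∈ Z1, GG N (1 - (1 / 2 + I * g + hh δ - hh δ)) = -1 := by
    intro g hg
    rw [add_sub_cancel_right, halfconj, GG_symm N _ (ne1 _ (by
      rw [half_eq]; simp only; intro h; linarith [h10 g hg]))]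
    rw [GG_of_zero N _ (hz1 g hg)]
    simp
  have nval2' : ∀ g ∈ Z2, GG N (1 - (1 / 2 + I * g - hh δ - hh δ)) = (starRingEnd ℂ) (q g) := by
    intro g hg
    have e : 1 - (1 / 2 + I * (g : ℂ) - hh δ - hh δ) =
        (starRingEnd ℂ) (1 / 2 + I * g - hh δ - hh δ) := by
      rw [map_sub, map_sub, conj_hh', ← halfconj]
      ring
    rw [e, GG_symm N _ (ne1 _ (by
      rw [half_eq, sub_im, sub_im, hh_im]; simp only; intro h; linarith [h10' g hg]))]
  have id2 := hid (fun s => GG N (s - hh δ) * GG N (1 - (s - hh δ))) an2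
  have r2 : rectI (fun s => PP t0 D δ s * (GG N (s - hh δ) * GG N (1 - (s - hh δ))))
      (-3 / 2) (5 / 2) U1 U2 = ((-(2 * Real.pi * (V1 - B)) : ℝ) : ℂ) := by
    rw [id2]
    have s1 : ∑ g ∈ Z1, I * (v g : ℂ) * (GG N (1 / 2 + I * g + hh δ - hh δ) *
        GG N (1 - (1 / 2 + I * g + hh δ - hh δ))) = I * (V1 : ℂ) := by
      rw [hV1, Complex.ofReal_sum, Finset.mul_sum]
      apply Finset.sum_congr rfl
      intro g hg
      rw [nval1 g hg, nval1' g hg]
      ring
    have s2 : ∑ g ∈ Z2, I * (v' g : ℂ) * (GG N (1 / 2 + I * g - hh δ - hh δ) *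
        GG N (1 - (1 / 2 + I * g - hh δ - hh δ))) = I * (B : ℂ) := by
      rw [hB, Complex.ofReal_sum, Finset.mul_sum]
      apply Finset.sum_congr rfl
      intro g hg
      rw [nval2' g hg]
      have : GG N (1 / 2 + I * g - hh δ - hh δ) = q g := rfl
      rw [this, Complex.mul_conj, Complex.normSq_eq_norm_sq]
      push_cast
      ring
    rw [s1, s2]
    push_cast
    linear_combination (2 * (Real.pi : ℂ) * (V1 - B)) * I_mul_I
  have b2 : ‖rectI (fun s => PP t0 D δ s * (GG N (s - hh δ) * GG N (1 - (s - hh δ))))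
      (-3 / 2) (5 / 2) U1 U2‖ ≤ 2 * (1 / 100 * (5 / 2 - -3 / 2)) + 2 * (C * D) := by
    apply rect_norm _ _ _ _ _ _ _ (by norm_num)
    · intro σ ha hb
      exact (H1 σ ha hb).2.1
    · intro σ ha hb
      exact (H2 σ ha hb).2.1
    · exact v2
    · refine le_trans (le_of_eq ?_) v2
      apply integral_conj' _ _ _ _ hU12
      intro t ht1 ht2
      have him5 : (⟨5 / 2, t⟩ : ℂ).im = t := rfl
      rw [conjpt t, PP_symm t0 D δ _ (by
        simp only
        rw [abs_of_pos (by linarith)]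
        linarith), conj2, conj1, GG_symm N _ (ne1 _ (by
          rw [imsub, him5]; intro h; linarith))]
      have e : 1 - (starRingEnd ℂ) ((⟨5 / 2, t⟩ : ℂ) - hh δ) =
          (starRingEnd ℂ) (1 - ((⟨5 / 2, t⟩ : ℂ) - hh δ)) := by
        rw [map_sub (starRingEnd ℂ) 1, map_one]
      rw [e, GG_symm N _ (ne1 _ (by
          rw [imone, him5]; intro h; linarith)), ← map_mul, ← map_mul]
      ring_nf
  have c2a : |V1 - B| ≤ C * D := by
    rw [r2, Complex.norm_real, Real.norm_eq_abs, abs_neg, abs_mul, abs_of_pos (by positivity)] at b2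
    have hCD : 1 ≤ C * D := one_le_mul_of_one_le_of_one_le hC hD1
    by_contra hcon
    push Not at hcon
    have : 2 * Real.pi * (C * D) < 2 * Real.pi * |V1 - B| :=
      mul_lt_mul_of_pos_left hcon (by positivity)
    nlinarith
  -- (3)
  have id3 := hid (fun s => GG N (1 - (s - hh δ))) an3
  have r3 : rectI (fun s => PP t0 D δ s * GG N (1 - (s - hh δ)))
      (-3 / 2) (5 / 2) U1 U2 = 2 * Real.pi * (V1 + Γ) := by
    rw [id3]
    have s1 : ∑ g ∈ Z1, I * (v g : ℂ) * (GG N (1 - (1 / 2 + I * g + hh δ - hh δ))) =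
        -(I * (V1 : ℂ)) := by
      rw [hV1, Complex.ofReal_sum, Finset.mul_sum, ← Finset.sum_neg_distrib]
      apply Finset.sum_congr rfl
      intro g hg
      rw [nval1' g hg]
      ring
    have s2 : ∑ g ∈ Z2, I * (v' g : ℂ) * (GG N (1 - (1 / 2 + I * g - hh δ - hh δ))) =
        I * Γ := by
      rw [hΓ, Finset.mul_sum]
      apply Finset.sum_congr rfl
      intro g hg
      rw [nval2' g hg]
      ring
    rw [s1, s2]
    linear_combination (-2 * (Real.pi : ℂ) * (V1 + Γ)) * I_mul_I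
  set K : ℂ → ℂ := fun s => phi t0 D s * rr δ s *
        (AA N (s + hh δ) * AA N (1 - (s - hh δ))) with hK
  have hKan : AnalyticOnNhd ℂ K (Set.Icc (1 / 2 : ℝ) (5 / 2) ×ℂ Set.Icc U1 U2) := by
    intro s hs
    have him : U1 ≤ s.im := hs.2.1
    apply AnalyticAt.mul
    · exact (Deep.phi_analytic _ _ s).mul (rr_analytic _ hδabs s (by linarith))
    · apply AnalyticAt.mul
      · apply AnalyticAt.comp' (g := AA N) (f := fun s => s + hh δ)
        · exact AA_analytic N _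
        · fun_prop
      · apply AnalyticAt.comp' (g := AA N) (f := fun s => 1 - (s - hh δ))
        · exact AA_analytic N _
        · fun_prop
  have hrz := rect_zero K (1 / 2) (5 / 2) U1 U2 (by norm_num) (by linarith) hKan
  have hb1 := hor_bound K (1 / 2) (5 / 2) U1 (1 / 100) (by norm_num) H1'
  have hb2 := hor_bound K (1 / 2) (5 / 2) U2 (1 / 100) (by norm_num) H2'
  have hk1' := hor_bound (fun s => PP t0 D δ s * GG N (1 - (s - hh δ))) (-3 / 2) (5 / 2) U1
    (1 / 100) (by norm_num) (fun σ ha hb => (H1 σ ha hb).2.2)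
  have hk2' := hor_bound (fun s => PP t0 D δ s * GG N (1 - (s - hh δ))) (-3 / 2) (5 / 2) U2
    (1 / 100) (by norm_num) (fun σ ha hb => (H2 σ ha hb).2.2)
  unfold rectI at hrz r3
  set I1 := ∫ x in (-3 / 2 : ℝ)..(5 / 2), (fun s => PP t0 D δ s * GG N (1 - (s - hh δ))) (⟨x, U1⟩ : ℂ) with hI1
  set I2 := ∫ x in (-3 / 2 : ℝ)..(5 / 2), (fun s => PP t0 D δ s * GG N (1 - (s - hh δ))) (⟨x, U2⟩ : ℂ) with hI2
  set I3 := ∫ y in U1..U2, (fun s => PP t0 D δ s * GG N (1 - (s - hh δ))) (⟨5 / 2, y⟩ : ℂ) with hI3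
  set I4 := ∫ y in U1..U2, (fun s => PP t0 D δ s * GG N (1 - (s - hh δ))) (⟨-3 / 2, y⟩ : ℂ) with hI4
  set J1 := ∫ x in (1 / 2 : ℝ)..(5 / 2), K (⟨x, U1⟩ : ℂ) with hJ1
  set J2 := ∫ x in (1 / 2 : ℝ)..(5 / 2), K (⟨x, U2⟩ : ℂ) with hJ2
  set J3 := ∫ y in U1..U2, K (⟨5 / 2, y⟩ : ℂ) with hJ3
  set J4 := ∫ y in U1..U2, K (⟨1 / 2, y⟩ : ℂ) with hJ4
  have n34 : ‖I3 - J3‖ ≤ C * D := v4
  have n4 : ‖I4‖ ≤ C * D := v3
  have hJneg : ((I / (2 * Real.pi)) * J4).re ≤ D * (-c1 * ε * Real.log N + C0) := by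
    refine le_trans (le_of_eq ?_) hneg
    congr 2
    rw [hJ4]
    apply intervalIntegral.integral_congr
    intro t _
    simp only [hK]
    ring
  have eq3 : (V1 : ℂ) + Γ = (I / (2 * Real.pi)) * J4 +
      (1 / (2 * Real.pi)) * (I1 - I2 - J1 + J2 + I * (I3 - J3) - I * I4) := by
    have hpi0 : (Real.pi : ℂ) ≠ 0 := by exact_mod_cast Real.pi_ne_zero
    field_simp
    linear_combination -r3 + hrz
  have herr : ‖(1 / (2 * (Real.pi : ℂ))) * (I1 - I2 - J1 + J2 + I * (I3 - J3) - I * I4)‖ ≤ C * D := by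
    rw [norm_mul]
    have t1 : ‖(1 / (2 * (Real.pi : ℂ)))‖ = 1 / (2 * Real.pi) := by
      have : (1 / (2 * (Real.pi : ℂ))) = ((1 / (2 * Real.pi) : ℝ) : ℂ) := by push_cast; ring
      rw [this, Complex.norm_real, Real.norm_eq_abs, abs_of_pos (by positivity)]
    rw [t1]
    have t2 : ‖I1 - I2 - J1 + J2 + I * (I3 - J3) - I * I4‖ ≤
        ‖I1‖ + ‖I2‖ + ‖J1‖ + ‖J2‖ + ‖I3 - J3‖ + ‖I4‖ := by
      have a1 := norm_sub_le (I1 - I2 - J1 + J2 + I * (I3 - J3)) (I * I4)
      have a2 := norm_add_le (I1 - I2 - J1 + J2) (I * (I3 - J3))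
      have a3 := norm_add_le (I1 - I2 - J1) J2
      have a4 := norm_sub_le (I1 - I2) J1
      have a5 := norm_sub_le I1 I2
      rw [norm_mul, norm_I, one_mul] at a1 a2
      linarith
    have hCD : 1 ≤ C * D := one_le_mul_of_one_le_of_one_le hC hD1
    have t3 : ‖I1 - I2 - J1 + J2 + I * (I3 - J3) - I * I4‖ ≤ 2 * Real.pi * (C * D) := by
      refine t2.trans ?_
      nlinarith
    rw [div_mul_eq_mul_div, one_mul, div_le_iff₀ (by positivity)]
    linarith
  have hupper : ((V1 : ℂ) + Γ).re ≤ D * (-c1 * ε * Real.log N + C0) + C * D := by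
    rw [eq3, add_re]
    have := (Complex.re_le_norm ((1 / (2 * (Real.pi : ℂ))) * (I1 - I2 - J1 + J2 + I * (I3 - J3) - I * I4))).trans herr
    linarith
  -- (4)
  have hΓle : ‖Γ‖ ≤ (V2 + B) / 2 := by
    rw [hΓ]
    refine (norm_sum_le _ _).trans ?_
    rw [hV2, hB, ← Finset.sum_add_distrib, Finset.sum_div]
    apply Finset.sum_le_sum
    intro g hg
    rw [norm_mul, Complex.norm_conj, Complex.norm_real, Real.norm_eq_abs, abs_of_pos (hv' g hg)]
    have h0 := hv' g hg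
    have : v' g * (1 - ‖q g‖) ^ 2 ≥ 0 := by positivity
    nlinarith
  have hlower : -(C * D) ≤ ((V1 : ℂ) + Γ).re := by
    rw [add_re, ofReal_re]
    have h1 := Complex.abs_re_le_norm Γ
    rw [abs_le] at h1 c1a c2a
    linarith [h1.1, c1a.1, c1a.2, c2a.1, c2a.2]
  have hDpos : 0 < D := by linarith
  have hfin : (c1 * (ε * Real.log N)) * D ≤ (2 * C + C0) * D := by linarith
  have hfin2 : c1 * (ε * Real.log N) ≤ 2 * C + C0 := le_of_mul_le_mul_right hfin hDpos
  rw [div_lt_iff₀ hc1'] at e1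
  linarith

end Pool.Agent.W192.SI
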