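import Pool.Agent.H382R2.Final0
import Pool.Agent.W192.SI.Main

open Complex Filter Topology Set MeasureTheory

namespace Pool.Agent.W192.SI

open SG

/-- failure of `Sep` on `[T, T + H]` gives a small gap -/
theorem gap_of_not_sep {δ H T : ℝ} (hT : 1 ≤ T) (hδ : 0 ≤ δ) (h : ¬ SI.Sep δ H T) :
    ∃ n : ℕ, 1 ≤ n ∧ T ≤ ord n ∧ ord (n + 1) ≤ T + H ∧ ord (n + 1) - ord n ≤ δ := by
  by_contra hcon
  push Not at hcon
  have key : ∀ t1 t2 : ℝ, T ≤ t1 → t2 ≤ T + H → t2 - t1 ≤ δ →
      (∃ n : ℕ, 1 ≤ n ∧ t1 ≤ ord n ∧ ord (n + 1) ≤ t2) → False := by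
    rintro t1 t2 h1 h2 h3 ⟨n, hn, h4, h5⟩
    have := hcon n hn (h1.trans h4) (h5.trans h2)
    linarith
  apply h
  refine ⟨?_, ?_, ?_⟩
  · intro s h1 h2 h3 h4 h5
    by_contra hre
    have hz := zero_reflect h5 h1 h2 (hT.trans h3)
    have him : (1 - (starRingEnd ℂ) s).im = s.im := by simp
    have hre' : (1 - (starRingEnd ℂ) s).re = 1 - s.re := by simp
    have hpos : 0 < s.im := by linarith
    refine key s.im s.im h3 h4 (by linarith) (consecutive_of_jump hpos ?_)
    intro t ht
    refine jump_two h5 h1 h2 hpos hz (by rw [hre']; linarith) (by rw [hre']; linarith) him ?_ t ht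
    intro he
    have := congrArg Complex.re he
    rw [hre'] at this
    apply hre
    linarith
  · intro s h1 h2 h3 h4 h5 h6
    have hpos : 0 < s.im := by linarith
    refine key s.im s.im h3 h4 (by linarith) (consecutive_of_jump hpos ?_)
    intro t ht
    have := jump_one h5 h1 h2 hpos t ht
    have := zmult_two hpos h5 h6
    omega
  · intro s s' h1 h2 h3 h4 h5 h1' h2' h3' h4' h5' hne
    by_contra hd
    push Not at hd
    have hpos : 0 < s.im := by linarith
    have hpos' : 0 < s'.im := by linarith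
    rcases lt_trichotomy s.im s'.im with hlt | heq | hgt
    · refine key s.im s'.im h3 h4' ?_ (consecutive_of_lt h5 h1 h2 hpos h5' h1' h2' hlt)
      have := (abs_le.mp hd).1
      linarith
    · refine key s.im s.im h3 h4 (by linarith) (consecutive_of_jump hpos ?_)
      intro t ht
      exact jump_two h5 h1 h2 hpos h5' h1' h2' heq.symm hne t ht
    · refine key s'.im s.im h3' h4 ?_ (consecutive_of_lt h5' h1' h2' hpos' h5 h1 h2 hgt)
      have := (abs_le.mp hd).2
      linarith

/-- comparison of the two forms of the bound -/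
theorem bound_conv {C H T : ℝ} (hA : Adm H T) (hC : 0 < C)
    (hloglog : 200 * Real.log (Real.log T) ≤ Real.log T)
    (h2 : 1 ≤ Real.log (Real.log T)) :
    dl (cc (C / Real.log (nn H T)) H T) T ≤ 2 * Real.pi / Real.log (T * H) *
      (1 + (4 * C) / Real.log H + (10 + 40 * C) * (Real.log (Real.log T) / Real.log T)) := by
  have hT := hA.T_pos
  have hH := hA.H_pos
  have hL := hA.log_ge
  have hN := hA.nn_big
  have hHge := hA.H_ge
  have hpi := Real.pi_pos
  set L := Real.log T with hLdef
  set l := Real.log L with hl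
  set h := Real.log H with hh
  have hL0 : 0 < L := by linarith
  -- log H ≥ 6 log log T and log H ≥ 24
  have hh6 : 6 * l ≤ h := by
    have := Real.log_le_log (by positivity) hA.lo
    rw [Real.log_pow] at this
    push_cast at this
    exact this
  have hh24 : 24 ≤ h := by
    rw [hh, Real.le_log_iff_exp_le hH]
    have h1 := Real.exp_one_lt_d9
    have h2 : Real.exp 24 = Real.exp 1 ^ 24 := by rw [← Real.exp_nat_mul]; norm_num
    rw [h2]
    have h3 : Real.exp 1 ^ 24 ≤ 2.7182818286 ^ 24 :=
      pow_le_pow_left₀ (Real.exp_pos 1).le h1.le 24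
    have h4 : (2.7182818286 : ℝ) ^ 24 ≤ 10 ^ 12 := by norm_num
    linarith
  have hlogTH : Real.log (T * H) = L + h := by
    rw [Real.log_mul hT.ne' hH.ne']
  -- log N
  have hN0 : (0 : ℝ) < nn H T := by linarith
  have hlog2 : Real.log 2 ≤ 0.7 := by linarith [Real.log_two_lt_d9]
  have hlogN : h - 4 * l - Real.log 2 ≤ Real.log (nn H T) := by
    have h1 := hA.nn_half
    have h2 := Real.log_le_log (by positivity) h1
    rw [Real.log_div (by positivity) (by norm_num), Real.log_div hH.ne' (by positivity),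
      Real.log_pow] at h2
    push_cast at h2
    linarith
  have hlogN4 : h / 4 ≤ Real.log (nn H T) := by linarith
  have hlogN0 : 0 < Real.log (nn H T) := by linarith
  set n := Real.log (nn H T) with hn
  have e1 : dl (cc (C / n) H T) T = 2 * Real.pi * (1 + C / n) / (L + n) := by
    unfold dl cc
    rw [← hLdef, ← hn]
    field_simp
  rw [e1, hlogTH]
  have hB : 0 < L + h := by linarith
  have hx : L + h - 5 * l ≤ L + n := by linarith
  have hhalf : 5 * l ≤ (L + h) / 2 := by linarith
  have hpos : 0 < L + h - 5 * l := by linarith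
  have hCn : C / n ≤ 4 * C / h := by
    rw [div_le_div_iff₀ hlogN0 (by linarith)]
    nlinarith
  have hCh : 4 * C / h ≤ 4 * C := by
    rw [div_le_iff₀ (by linarith)]
    nlinarith
  have step1 : 2 * Real.pi * (1 + C / n) / (L + n) ≤
      2 * Real.pi * (1 + 4 * C / h) / (L + h - 5 * l) := by
    apply div_le_div₀ (by positivity) _ hpos hx
    gcongr
  refine step1.trans ?_
  have step2 : 1 / (L + h - 5 * l) ≤ 1 / (L + h) * (1 + 10 * (l / L)) := by
    rw [div_mul_eq_mul_div, one_mul, div_le_div_iff₀ hpos hB]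
    have : 10 * (l / L) * (L + h - 5 * l) ≥ 5 * l := by
      have k1 : (L + h) / 2 ≤ L + h - 5 * l := by linarith
      have k2 : 10 * (l / L) * (L / 2) ≤ 10 * (l / L) * (L + h - 5 * l) := by
        apply mul_le_mul_of_nonneg_left _ (by positivity)
        linarith
      have k3 : 10 * (l / L) * (L / 2) = 5 * l := by field_simp; ring
      linarith
    nlinarith
  calc 2 * Real.pi * (1 + 4 * C / h) / (L + h - 5 * l)
      = 2 * Real.pi * (1 + 4 * C / h) * (1 / (L + h - 5 * l)) := by ring
    _ ≤ 2 * Real.pi * (1 + 4 * C / h) * (1 / (L + h) * (1 + 10 * (l / L))) := by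
        apply mul_le_mul_of_nonneg_left step2
        have : 0 ≤ 4 * C / h := by positivity
        positivity
    _ = 2 * Real.pi / (L + h) * ((1 + 4 * C / h) * (1 + 10 * (l / L))) := by ring
    _ ≤ _ := by
        apply mul_le_mul_of_nonneg_left _ (by positivity)
        have hlL : 0 ≤ l / L := by positivity
        have : 4 * C / h * (10 * (l / L)) ≤ 4 * C * (10 * (l / L)) :=
          mul_le_mul_of_nonneg_right hCh (by positivity)
        nlinarith

/-- **small gaps in every short interval**, unconditional and uniform -/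
theorem short_gaps : ∃ C T0 : ℝ, 0 < C ∧ ∀ T H : ℝ, T0 ≤ T → Real.log T ^ 6 ≤ H → H ≤ T →
    ∃ n : ℕ, 1 ≤ n ∧ T ≤ ord n ∧ ord (n + 1) ≤ T + H ∧
      ord (n + 1) - ord n ≤ 2 * Real.pi / Real.log (T * H) *
        (1 + C / Real.log H + C * (Real.log (Real.log T) / Real.log T)) := by
  obtain ⟨T0, C, hC, hns⟩ := SI.no_sep
  have hll : Tendsto (fun T : ℝ => Real.log (Real.log T)) atTop atTop :=
    Real.tendsto_log_atTop.comp Real.tendsto_log_atTop
  have ev1 : ∀ᶠ T : ℝ in atTop, 200 * Real.log (Real.log T) ≤ Real.log T := by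
    have h1 := Real.isLittleO_log_id_atTop.comp_tendsto Real.tendsto_log_atTop
    have h2 := h1.bound (show (0 : ℝ) < 1 / 200 by norm_num)
    filter_upwards [h2, hll.eventually_ge_atTop 0, Real.tendsto_log_atTop.eventually_ge_atTop 0]
      with T h3 h4 h5
    simp only [Function.comp, id, Real.norm_eq_abs] at h3
    rw [abs_of_nonneg h4, abs_of_nonneg h5] at h3
    linarith
  have ev2 : ∀ᶠ T : ℝ in atTop, 2 * (2 * C) + 1 ≤ Real.log (Real.log T) :=
    hll.eventually_ge_atTop _
  obtain ⟨T1, hT1⟩ := eventually_atTop.mp (ev1.and ev2)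
  refine ⟨10 + 40 * (2 * C), max (max T0 T1) (Real.exp 100), by positivity, ?_⟩
  intro T H hT hlo hhi
  have hT0 : T0 ≤ T := (le_max_left _ _).trans ((le_max_left _ _).trans hT)
  have hT1' : T1 ≤ T := (le_max_right _ _).trans ((le_max_left _ _).trans hT)
  have hA : Adm H T := ⟨(le_max_right _ _).trans hT, hlo, hhi⟩
  obtain ⟨k1, k2⟩ := hT1 T hT1'
  have hll1 : 1 ≤ Real.log (Real.log T) := by linarith
  have hL := hA.log_ge
  -- lower bound for log N
  have hN := hA.nn_big
  have hlogN : Real.log (Real.log T) ≤ Real.log (nn H T) := by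
    apply Real.log_le_log (by linarith)
    have h1 := hA.quot_ge
    have h2 := hA.nn_half
    nlinarith
  have hlogN0 : 0 < Real.log (nn H T) := by linarith
  have hε1 : 2 * C / Real.log (nn H T) ≤ 1 / 2 := by
    rw [div_le_iff₀ hlogN0]
    linarith
  have hε0 : 0 ≤ 2 * C / Real.log (nn H T) := by positivity
  have hns' := hns (2 * C / Real.log (nn H T)) H T hε0 hε1 hA hT0 (by
    rw [div_mul_cancel₀ _ hlogN0.ne']
    linarith)
  obtain ⟨hcc1, hcc2⟩ := cc_facts hA hε0 hε1
  obtain ⟨n, hn, h1, h2, h3⟩ := gap_of_not_sep (by linarith [hA.T_ge'])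
    (hA.dl_pos (by linarith : 0 < cc (2 * C / Real.log (nn H T)) H T)).le hns'
  refine ⟨n, hn, h1, h2, h3.trans ?_⟩
  refine (bound_conv hA (by positivity : 0 < 2 * C) k1 hll1).trans ?_
  have hH := hA.H_ge
  norm_num at hH
  have hlogH : 0 < Real.log H := Real.log_pos (by linarith)
  have hlogTH : 0 < Real.log (T * H) := Real.log_pos (by nlinarith [hA.T_ge'])
  apply mul_le_mul_of_nonneg_left _ (by positivity)
  have h4 : 4 * (2 * C) / Real.log H ≤ (10 + 40 * (2 * C)) / Real.log H :=
    div_le_div_of_nonneg_right (by linarith) hlogH.le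
  linarith

end Pool.Agent.W192.SI
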